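import Pool.Agent.H24.SCG3.Stmts6
import Pool.Agent.H24.SCG.Base

/-!
# Row EC1: commuting elations
-/

namespace Pool.Agent.H63.SCG3

open Matrix Pool.SCG

variable {F : Type*} [Field F]

/-- the product of two elations -/
theorem el_mul (u φ v ψ : Fin 3 → F) :
    (1 + vecMulVec u φ) * (1 + vecMulVec v ψ) =
      1 + vecMulVec u φ + vecMulVec v ψ + (φ ⬝ᵥ v) • vecMulVec u ψ := by
  ext i j
  fin_cases i <;> fin_cases j <;>
    simp [Matrix.mul_apply, Fin.sum_univ_three, vecMulVec_apply, dotProduct] <;> ring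

theorem ne_zero_entry {u : Fin 3 → F} (h : u ≠ 0) : ∃ i, u i ≠ 0 := by
  by_contra hc
  push Not at hc
  exact h (funext hc)

theorem comm_el_iff {u φ v ψ : Fin 3 → F} (hu : u ≠ 0) (hv : v ≠ 0) (hφ : φ ≠ 0) (hψ : ψ ≠ 0)
    (hψv : ψ ⬝ᵥ v = 0) :
    (1 + vecMulVec u φ) * (1 + vecMulVec v ψ) = (1 + vecMulVec v ψ) * (1 + vecMulVec u φ) ↔
      φ ⬝ᵥ v = 0 ∧ ψ ⬝ᵥ u = 0 := by
  rw [el_mul, el_mul]
  constructor
  · intro h
    have h1 : ∀ i j, (φ ⬝ᵥ v) * (u i * ψ j) = (ψ ⬝ᵥ u) * (v i * φ j) := by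
      intro i j
      have h2 := congrFun (congrFun h i) j
      simp only [Matrix.add_apply, Matrix.smul_apply, vecMulVec_apply, smul_eq_mul] at h2
      linear_combination h2
    obtain ⟨i, hi⟩ := ne_zero_entry hv
    obtain ⟨k, hk⟩ := ne_zero_entry hφ
    obtain ⟨i', hi'⟩ := ne_zero_entry hu
    obtain ⟨j', hj'⟩ := ne_zero_entry hψ
    have e0 : ψ 0 * v 0 + ψ 1 * v 1 + ψ 2 * v 2 = 0 := by
      simpa [dotProduct, Fin.sum_univ_three] using hψv
    have e1 : φ ⬝ᵥ v = φ 0 * v 0 + φ 1 * v 1 + φ 2 * v 2 := by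
      simp [dotProduct, Fin.sum_univ_three]
    -- evaluate on `v`
    have h3 : (ψ ⬝ᵥ u) * (φ ⬝ᵥ v) = 0 := by
      have h4 : (ψ ⬝ᵥ u) * (v i * (φ ⬝ᵥ v)) = 0 := by
        have a0 := h1 i 0
        have a1 := h1 i 1
        have a2 := h1 i 2
        rw [e1]
        linear_combination (-(v 0)) * a0 - (v 1) * a1 - (v 2) * a2 + (φ ⬝ᵥ v) * u i * e0
      have h5 : v i * ((ψ ⬝ᵥ u) * (φ ⬝ᵥ v)) = 0 := by linear_combination h4
      exact (mul_eq_zero.1 h5).resolve_left hi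
    rcases mul_eq_zero.1 h3 with h4 | h4
    · refine ⟨?_, h4⟩
      have := h1 i' j'
      rw [h4, zero_mul] at this
      exact (mul_eq_zero.1 this).resolve_right (mul_ne_zero hi' hj')
    · refine ⟨h4, ?_⟩
      have := h1 i k
      rw [h4, zero_mul] at this
      exact (mul_eq_zero.1 this.symm).resolve_right (mul_ne_zero hi hk)
  · rintro ⟨h1, h2⟩
    rw [h1, h2, zero_smul, zero_smul, add_zero, add_zero]
    abel

/-- **Row EC1.** -/
theorem ec1_thm : EC1Stmt := by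
  intro F _ x y u φ v ψ hx hy
  rw [comm_inner_iff hx.is hy.is]
  exact comm_el_iff hx.u0 hy.u0 hx.p0 hy.p0 hy.pu

end Pool.Agent.H63.SCG3
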