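import Pool.Agent.H63.SCG3.EC1

/-!
# Row EODD: the product of two elations in general position has odd order
-/

namespace Pool.Agent.H63.SCG3

open Matrix Pool.SCG

variable {F : Type*} [Field F]

theorem el_sq (h2 : (2 : F) = 0) {x : Cor F} {u φ : Fin 3 → F} (hx : El x u φ) : x * x = 1 := by
  rw [inner_sq_iff hx.is, el_mul, hx.pu, zero_smul, add_zero, add_assoc]
  have : vecMulVec u φ + vecMulVec u φ = 0 := by
    ext i j
    simp only [Matrix.add_apply, Matrix.zero_apply]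
    linear_combination (vecMulVec u φ i j) * h2
  rw [this, add_zero]

/-- `x` is inner and its matrix fixes the vector `p` -/
def FixV (p : Fin 3 → F) (x : Cor F) : Prop := x.s = false ∧ (x.m : M3 F) *ᵥ p = p

theorem fixV_mul {p : Fin 3 → F} {x y : Cor F} (hx : FixV p x) (hy : FixV p y) :
    FixV p (x * y) := by
  have h1 : Is x false (x.m : M3 F) := ⟨hx.1, rfl⟩
  have h2 : Is y false (y.m : M3 F) := ⟨hy.1, rfl⟩
  have h3 := h1.mul_inner h2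
  refine ⟨h3.1, ?_⟩
  rw [h3.2, ← Matrix.mulVec_mulVec, hy.2, hx.2]

theorem fixV_pow {p : Fin 3 → F} {x : Cor F} (hx : FixV p x) (k : ℕ) : FixV p (x ^ k) := by
  induction k with
  | zero =>
    rw [pow_zero]
    refine ⟨is_one.1, ?_⟩
    rw [is_one.2, Matrix.one_mulVec]
  | succ k ih =>
    rw [pow_succ]
    exact fixV_mul ih hx

/-- the cross product -/
def cr (a b : Fin 3 → F) : Fin 3 → F :=
  ![a 1 * b 2 - a 2 * b 1, a 2 * b 0 - a 0 * b 2, a 0 * b 1 - a 1 * b 0]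

theorem el_fix {u φ p : Fin 3 → F} {x : Cor F} (hx : El x u φ) (hp : φ ⬝ᵥ p = 0) : FixV p x := by
  refine ⟨hx.is.1, ?_⟩
  rw [hx.is.2, Matrix.add_mulVec, Matrix.one_mulVec]
  have : vecMulVec u φ *ᵥ p = 0 := by
    ext i
    simp only [Matrix.mulVec, dotProduct, vecMulVec_apply, Pi.zero_apply]
    have h2 : ∑ j, u i * φ j * p j = u i * (φ ⬝ᵥ p) := by
      rw [dotProduct, Finset.mul_sum]
      exact Finset.sum_congr rfl fun j _ => by ring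
    rw [h2, hp, mul_zero]
  rw [this, add_zero]

/-- a functional vanishing on `u`, `v` and `φ × ψ` is zero -/
theorem functional_zero {u φ v ψ χ : Fin 3 → F} (hφu : φ ⬝ᵥ u = 0) (hψv : ψ ⬝ᵥ v = 0)
    (h1 : φ ⬝ᵥ v ≠ 0) (h2 : ψ ⬝ᵥ u ≠ 0) (c1 : χ ⬝ᵥ u = 0) (c2 : χ ⬝ᵥ v = 0)
    (c3 : χ ⬝ᵥ cr φ ψ = 0) : χ = 0 := by
  simp only [dotProduct, Fin.sum_univ_three] at hφu hψv h1 h2 c1 c2 c3
  simp only [cr, Matrix.cons_val_zero, Matrix.cons_val_one, Matrix.cons_val] at c3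
  have hd : (φ 0 * v 0 + φ 1 * v 1 + φ 2 * v 2) * (ψ 0 * u 0 + ψ 1 * u 1 + ψ 2 * u 2) ≠ 0 :=
    mul_ne_zero h1 h2
  -- determinant of the rows `u`, `v`, `p`
  set D : F := u 0 * (v 1 * (φ 0 * ψ 1 - φ 1 * ψ 0) - v 2 * (φ 2 * ψ 0 - φ 0 * ψ 2)) -
    u 1 * (v 0 * (φ 0 * ψ 1 - φ 1 * ψ 0) - v 2 * (φ 1 * ψ 2 - φ 2 * ψ 1)) +
    u 2 * (v 0 * (φ 2 * ψ 0 - φ 0 * ψ 2) - v 1 * (φ 1 * ψ 2 - φ 2 * ψ 1)) with hD
  have hDn : D ≠ 0 := by
    intro h0
    apply hd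
    have e : D = (φ 0 * u 0 + φ 1 * u 1 + φ 2 * u 2) * (ψ 0 * v 0 + ψ 1 * v 1 + ψ 2 * v 2) -
        (φ 0 * v 0 + φ 1 * v 1 + φ 2 * v 2) * (ψ 0 * u 0 + ψ 1 * u 1 + ψ 2 * u 2) := by
      rw [hD]; ring
    rw [hφu, zero_mul, zero_sub, h0] at e
    linear_combination e
  have k0 : χ 0 * D = 0 := by
    rw [hD]
    linear_combination ((v 1 * (φ 0 * ψ 1 - φ 1 * ψ 0) - v 2 * (φ 2 * ψ 0 - φ 0 * ψ 2))) * c1 -
      (u 1 * (φ 0 * ψ 1 - φ 1 * ψ 0) - u 2 * (φ 2 * ψ 0 - φ 0 * ψ 2)) * c2 +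
      (u 1 * v 2 - u 2 * v 1) * c3
  have k1 : χ 1 * D = 0 := by
    rw [hD]
    linear_combination (-(v 0 * (φ 0 * ψ 1 - φ 1 * ψ 0) - v 2 * (φ 1 * ψ 2 - φ 2 * ψ 1))) * c1 +
      (u 0 * (φ 0 * ψ 1 - φ 1 * ψ 0) - u 2 * (φ 1 * ψ 2 - φ 2 * ψ 1)) * c2 +
      (u 2 * v 0 - u 0 * v 2) * c3
  have k2 : χ 2 * D = 0 := by
    rw [hD]
    linear_combination ((v 0 * (φ 2 * ψ 0 - φ 0 * ψ 2) - v 1 * (φ 1 * ψ 2 - φ 2 * ψ 1))) * c1 -
      (u 0 * (φ 2 * ψ 0 - φ 0 * ψ 2) - u 1 * (φ 1 * ψ 2 - φ 2 * ψ 1)) * c2 +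
      (u 0 * v 1 - u 1 * v 0) * c3
  funext i
  fin_cases i
  · exact (mul_eq_zero.1 k0).resolve_right hDn
  · exact (mul_eq_zero.1 k1).resolve_right hDn
  · exact (mul_eq_zero.1 k2).resolve_right hDn

/-- **Row EODD.** -/
theorem eodd_thm (hEINV : EINVStmt) (hEC1 : EC1Stmt) : EODDStmt := by
  intro F _ _ h2 x y u φ v ψ hx hy hφv hψu
  by_contra hodd
  rw [Nat.not_odd_iff_even] at hodd
  obtain ⟨k, hk⟩ := hodd
  have hpos : 0 < orderOf (x * y) := orderOf_pos _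
  have hxx : x * x = 1 := el_sq h2 hx
  have hyy : y * y = 1 := el_sq h2 hy
  have hk0 : 0 < k := by omega
  set z := (x * y) ^ k with hz
  have hzz : z * z = 1 := by
    rw [hz, ← pow_add, ← hk, pow_orderOf_eq_one]
  have hz1 : z ≠ 1 := by
    intro h
    have := orderOf_dvd_of_pow_eq_one h
    have := Nat.le_of_dvd hk0 this
    omega
  have hxi : x⁻¹ = x := inv_eq_of_mul_eq_one_right hxx
  have hyi : y⁻¹ = y := inv_eq_of_mul_eq_one_right hyy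
  have hzi : z⁻¹ = z := inv_eq_of_mul_eq_one_right hzz
  -- `z` commutes with `x` and `y`
  have hxz : x * z = z * x := by
    have e1 : x * (x * y) * x⁻¹ = (x * y)⁻¹ := by
      rw [_root_.mul_inv_rev, hxi, hyi, ← mul_assoc, hxx, one_mul]
    have e2 : x * z * x⁻¹ = z⁻¹ := by
      rw [hz, ← conj_pow, e1, inv_pow]
    rw [hzi] at e2
    calc x * z = x * z * x⁻¹ * x := by group
      _ = z * x := by rw [e2]
  have hyz : y * z = z * y := by
    have e1 : y * (x * y) * y⁻¹ = (x * y)⁻¹ := by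
      rw [_root_.mul_inv_rev, hxi, hyi, mul_assoc, mul_assoc, hyy, mul_one]
    have e2 : y * z * y⁻¹ = z⁻¹ := by
      rw [hz, ← conj_pow, e1, inv_pow]
    rw [hzi] at e2
    calc y * z = y * z * y⁻¹ * y := by group
      _ = z * y := by rw [e2]
  -- `z` fixes `φ × ψ`
  have p1 : φ ⬝ᵥ cr φ ψ = 0 := by
    simp [dotProduct, Fin.sum_univ_three, cr]; ring
  have p2 : ψ ⬝ᵥ cr φ ψ = 0 := by
    simp [dotProduct, Fin.sum_univ_three, cr]; ring
  have hfix : FixV (cr φ ψ) z := fixV_pow (fixV_mul (el_fix hx p1) (el_fix hy p2)) k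
  rcases hEINV F h2 z ⟨hz1, hzz⟩ with ⟨w, χ, hw⟩ | ⟨S, hS⟩
  · have c1 := ((hEC1 F x z u φ w χ hx hw).1 hxz).2
    have c2 := ((hEC1 F y z v ψ w χ hy hw).1 hyz).2
    have c3 : χ ⬝ᵥ cr φ ψ = 0 := by
      have h3 := hfix.2
      rw [hw.is.2, Matrix.add_mulVec, Matrix.one_mulVec] at h3
      have h4 : vecMulVec w χ *ᵥ cr φ ψ = 0 := by
        have := congrArg (fun t => t - cr φ ψ) h3
        simpa using this
      obtain ⟨i, hi⟩ : ∃ i, w i ≠ 0 := by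
        by_contra hc
        push Not at hc
        exact hw.u0 (funext hc)
      have h5 := congrFun h4 i
      have h6 : (vecMulVec w χ *ᵥ cr φ ψ) i = w i * (χ ⬝ᵥ cr φ ψ) := by
        simp only [Matrix.mulVec, dotProduct, vecMulVec_apply, Finset.mul_sum]
        exact Finset.sum_congr rfl fun j _ => by ring
      rw [h6] at h5
      exact (mul_eq_zero.1 h5).resolve_left hi
    exact hw.p0 (functional_zero hx.pu hy.pu hφv hψu c1 c2 c3)
  · have := hfix.1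
    rw [hS.is.1] at this
    exact absurd this (by decide)

end Pool.Agent.H63.SCG3
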