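import Pool.Agent.H24.SCG3.Stmts6
import Pool.Agent.H24.SCG.Base

/-!
# Row ENF: normal form of symmetric matrices over perfect fields of characteristic two
-/

namespace Pool.Agent.H63.SCG3

open Matrix Pool.SCG

variable {F : Type*} [Field F]

/-- the form -/
def bf (S : M3 F) (u v : Fin 3 → F) : F := u ⬝ᵥ (S *ᵥ v)

theorem bf_add_left (S : M3 F) (u v w : Fin 3 → F) : bf S (u + v) w = bf S u w + bf S v w := by
  unfold bf; rw [add_dotProduct]

theorem bf_add_right (S : M3 F) (u v w : Fin 3 → F) : bf S u (v + w) = bf S u v + bf S u w := by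
  unfold bf; rw [Matrix.mulVec_add, dotProduct_add]

theorem bf_symm {S : M3 F} (hS : S.transpose = S) (u v : Fin 3 → F) : bf S u v = bf S v u := by
  unfold bf
  rw [Matrix.dotProduct_mulVec, ← Matrix.mulVec_transpose, hS, dotProduct_comm]

theorem bf_smul_right (S : M3 F) (c : F) (u v : Fin 3 → F) : bf S u (c • v) = c * bf S u v := by
  unfold bf; rw [Matrix.mulVec_smul, dotProduct_smul, smul_eq_mul]

/-- **Row ENF.** -/
theorem enf_thm : ENFStmt := by
  intro F _ h2 hsq S hS hdet
  have s01 : S 1 0 = S 0 1 := by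
    have := congrFun (congrFun hS 0) 1
    simpa [Matrix.transpose_apply] using this
  have s02 : S 2 0 = S 0 2 := by
    have := congrFun (congrFun hS 0) 2
    simpa [Matrix.transpose_apply] using this
  have s12 : S 2 1 = S 1 2 := by
    have := congrFun (congrFun hS 1) 2
    simpa [Matrix.transpose_apply] using this
  -- the functional
  choose sq hsq' using hsq
  set s : Fin 3 → F := fun i => sq (S i i) with hs
  have hss : ∀ i, s i ^ 2 = S i i := fun i => hsq' (S i i)
  have hvv : ∀ v : Fin 3 → F, bf S v v = (s ⬝ᵥ v) ^ 2 := by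
    intro v
    have e0 := hss 0
    have e1 := hss 1
    have e2 := hss 2
    simp only [bf, Matrix.mulVec, dotProduct, Fin.sum_univ_three, s01, s02, s12]
    linear_combination (-(v 0) ^ 2) * e0 - (v 1) ^ 2 * e1 - (v 2) ^ 2 * e2 +
      (v 0 * v 1 * S 0 1 + v 0 * v 2 * S 0 2 + v 1 * v 2 * S 1 2 - s 0 * v 0 * s 1 * v 1 -
        s 0 * v 0 * s 2 * v 2 - s 1 * v 1 * s 2 * v 2) * h2
  set a : Fin 3 → F := adjugate S *ᵥ s with ha
  have hSa : S *ᵥ a = s := by
    rw [ha, Matrix.mulVec_mulVec, mul_adj_self hdet, Matrix.one_mulVec]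
  have hva : ∀ v : Fin 3 → F, bf S v a = s ⬝ᵥ v := by
    intro v
    unfold bf
    rw [hSa, dotProduct_comm]
  have hsa : s ⬝ᵥ a = 1 := by
    have e0 := hss 0
    have e1 := hss 1
    have e2 := hss 2
    have hd := hdet
    rw [Matrix.det_fin_three] at hd
    rw [s01, s02, s12] at hd
    rw [ha, Matrix.adjugate_fin_three]
    simp only [Matrix.mulVec, dotProduct, Fin.sum_univ_three, Matrix.cons_val_zero,
      Matrix.cons_val_one, Matrix.cons_val, Matrix.of_apply, s01, s02, s12]
    linear_combination hd + (S 1 1 * S 2 2 - S 1 2 ^ 2) * e0 + (S 0 0 * S 2 2 - S 0 2 ^ 2) * e1 +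
      (S 0 0 * S 1 1 - S 0 1 ^ 2) * e2 +
      (-(s 0 * S 1 1 * S 0 2 * s 2) - s 0 * S 2 2 * S 0 1 * s 1 + s 0 * S 1 2 * S 0 1 * s 2 +
        s 0 * S 1 2 * S 0 2 * s 1 + S 1 1 * S 2 2 * S 0 0 - S 1 2 * S 0 1 * S 0 2 -
        S 1 2 * s 1 * s 2 * S 0 0 + S 0 1 * S 0 2 * s 1 * s 2) * h2
  have haa : bf S a a = 1 := by rw [hva, hsa]
  -- two vectors of the kernel which are not orthogonal
  obtain ⟨e, f₀, he, hf₀, hef⟩ : ∃ e f : Fin 3 → F, s ⬝ᵥ e = 0 ∧ s ⬝ᵥ f = 0 ∧ bf S e f ≠ 0 := by
    by_contra hcon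
    push Not at hcon
    have hker : ∀ f : Fin 3 → F, s ⬝ᵥ f = 0 → f = 0 := by
      intro f hf
      have h1 : ∀ g : Fin 3 → F, bf S g f = 0 := by
        intro g
        have e1 : bf S a f = 0 := by rw [bf_symm hS, hva, hf]
        have e2 : s ⬝ᵥ (g - (s ⬝ᵥ g) • a) = 0 := by
          rw [dotProduct_sub, dotProduct_smul, smul_eq_mul, hsa, mul_one, sub_self]
        have e3 := hcon _ f e2 hf
        have e4 : bf S g f = bf S (g - (s ⬝ᵥ g) • a) f + (s ⬝ᵥ g) * bf S a f := by
          unfold bf
          rw [sub_dotProduct, smul_dotProduct, smul_eq_mul]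
          ring
        rw [e4, e3, e1]
        ring
      have h3 : S *ᵥ f = 0 := by
        funext i
        have := h1 (Pi.single i 1)
        unfold bf at this
        rw [single_dotProduct, one_mul] at this
        exact this
      calc f = (adjugate S * S) *ᵥ f := by rw [adj_mul_self hdet, Matrix.one_mulVec]
        _ = adjugate S *ᵥ (S *ᵥ f) := by rw [Matrix.mulVec_mulVec]
        _ = 0 := by rw [h3, Matrix.mulVec_zero]
    have k1 : (![s 1, s 0, 0] : Fin 3 → F) = 0 := by
      apply hker
      simp only [dotProduct, Fin.sum_univ_three, Matrix.cons_val_zero, Matrix.cons_val_one,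
        Matrix.cons_val]
      linear_combination (s 0 * s 1) * h2
    have k2 : (![s 2, 0, s 0] : Fin 3 → F) = 0 := by
      apply hker
      simp only [dotProduct, Fin.sum_univ_three, Matrix.cons_val_zero, Matrix.cons_val_one,
        Matrix.cons_val]
      linear_combination (s 0 * s 2) * h2
    have z0 : s 0 = 0 := by simpa using congrFun k1 1
    have z1 : s 1 = 0 := by simpa using congrFun k1 0
    have z2 : s 2 = 0 := by simpa using congrFun k2 0
    rw [dotProduct, Fin.sum_univ_three, z0, z1, z2] at hsa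
    simp at hsa
  set f : Fin 3 → F := (bf S e f₀)⁻¹ • f₀ with hf
  have hef1 : bf S e f = 1 := by rw [hf, bf_smul_right, inv_mul_cancel₀ hef]
  have hfe1 : bf S f e = 1 := by rw [bf_symm hS]; exact hef1
  have hsf : s ⬝ᵥ f = 0 := by rw [hf, dotProduct_smul, hf₀, smul_zero]
  have hee : bf S e e = 0 := by rw [hvv, he]; ring
  have hff : bf S f f = 0 := by rw [hvv, hsf]; ring
  have hea : bf S e a = 0 := by rw [hva, he]
  have hae : bf S a e = 0 := by rw [bf_symm hS]; exact hea
  have hfa : bf S f a = 0 := by rw [hva, hsf]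
  have haf : bf S a f = 0 := by rw [bf_symm hS]; exact hfa
  set w : Fin 3 → Fin 3 → F := ![a + e, a + f, a + e + f] with hw
  set P : M3 F := (Matrix.of w).transpose with hP
  have hPSP : P.transpose * S * P = 1 := by
    have h1 : ∀ i j, (P.transpose * S * P) i j = bf S (w i) (w j) := by
      intro i j
      simp only [hP, Matrix.transpose_transpose, Matrix.mul_apply, Matrix.transpose_apply,
        Matrix.of_apply, bf, Matrix.mulVec, dotProduct, Fin.sum_univ_three]
      ring
    ext i j
    rw [h1]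
    fin_cases i <;> fin_cases j <;>
      simp [hw, bf_add_left, bf_add_right, haa, hae, haf, hea, hee, hef1, hfa, hfe1, hff] <;>
      linear_combination h2
  have hdP : P.det = 1 := by
    have h1 := congrArg Matrix.det hPSP
    rw [Matrix.det_mul, Matrix.det_mul, Matrix.det_transpose, hdet, mul_one, Matrix.det_one] at h1
    have h3 : (P.det - 1) ^ 2 = 0 := by linear_combination h1 + (1 - P.det) * h2
    have := pow_eq_zero_iff (n := 2) (by norm_num) |>.1 h3
    linear_combination this
  exact ⟨⟨P, hdP⟩, hPSP⟩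

end Pool.Agent.H63.SCG3
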